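import Pool.Agent.Lib.H30F.SD
import Pool.Agent.Lib.H70H.K1
import Pool.Agent.Lib.H56V.D

/-!
# H33TF, file T: truncated acyclicity (`H70H.ACk`): transfer, closure, subdivision, upper fibres
-/

set_option autoImplicit false

namespace H33TF

open Finset H98P H63F H30F H70H

/-- TRANSFER OF TRUNCATED ACYCLICITY (as `H30F.ac_transfer`). -/
theorem ack_transfer {k : ℕ} {A B : Type*} [Fintype A] [DecidableEq A] [Fintype B] [DecidableEq B]
    (K : Finset A → Prop) (L : Finset B → Prop) (hK : Dn K) (hL : Dn L)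
    (hK0 : K ∅) (hL0 : L ∅)
    (Φ : Finset A → Finset B → Prop) (Ψ : Finset B → Finset A → Prop)
    (Θ : Finset A → Finset A → Prop)
    (Φm : ∀ s t, s ⊆ t → K t → s.Nonempty → ∀ r, Φ s r → Φ t r)
    (Φ0 : ∀ s, K s → s.Nonempty → Φ s ∅) (Φac : ∀ s, K s → s.Nonempty → AC (Φ s))
    (ΦL : ∀ s, K s → s.Nonempty → ∀ r, Φ s r → L r)
    (Ψm : ∀ s t, s ⊆ t → L t → s.Nonempty → ∀ r, Ψ s r → Ψ t r)
    (Ψ0 : ∀ s, L s → s.Nonempty → Ψ s ∅) (Ψac : ∀ s, L s → s.Nonempty → AC (Ψ s))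
    (ΨK : ∀ s, L s → s.Nonempty → ∀ r, Ψ s r → K r)
    (Θm : ∀ s t, s ⊆ t → K t → s.Nonempty → ∀ r, Θ s r → Θ t r)
    (Θs : ∀ s, K s → s.Nonempty → Θ s s) (Θac : ∀ s, K s → s.Nonempty → AC (Θ s))
    (ΘK : ∀ s, K s → s.Nonempty → ∀ r, Θ s r → K r)
    (hc : ∀ s t r, K s → s.Nonempty → Φ s t → t.Nonempty → Ψ t r → Θ s r)
    (hAL : ACk k L) : ACk k K := by
  classical
  obtain ⟨θ, θ0, θ1, θ2⟩ := carriers K hK Φ Φm Φ0 Φac
  obtain ⟨ψ, ψ0, ψ1, ψ2⟩ := carriers L hL Ψ Ψm Ψ0 Ψac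
  have θ2' := carr_all θ0 θ2
  have ψ2' := carr_all ψ0 ψ2
  have θL : ∀ s, K s → ∀ r, θ s r ≠ 0 → L r := by
    intro s hs r hr
    rcases s.eq_empty_or_nonempty with h | h
    · rw [h, θ0] at hr
      by_cases h1 : r = ∅
      · rw [h1]
        exact hL0
      · rw [if_neg h1] at hr
        exact absurd rfl hr
    · exact ΦL s hs h r (θ1 s hs h r hr).1
  have ψK : ∀ s, L s → ∀ r, ψ s r ≠ 0 → K r := by
    intro s hs r hr
    rcases s.eq_empty_or_nonempty with h | h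
    · rw [h, ψ0] at hr
      by_cases h1 : r = ∅
      · rw [h1]
        exact hK0
      · rw [if_neg h1] at hr
        exact absurd rfl hr
    · exact ΨK s hs h r (ψ1 s hs h r hr).1
  obtain ⟨g, hg⟩ : ∃ g : Finset A → Finset A → ZMod 2, ∀ s r, g s r = psh ψ (θ s) r :=
    ⟨fun s r => psh ψ (θ s) r, fun _ _ => rfl⟩
  have g0 : ∀ r, g ∅ r = if r = ∅ then 1 else 0 := by
    intro r
    rw [hg]
    unfold psh
    rw [Finset.sum_eq_single ∅]
    · rw [θ0, if_pos rfl, one_mul, ψ0]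
    · intro T _ hT
      rw [θ0, if_neg hT, zero_mul]
    · intro h
      exact absurd (mem_univ _) h
  have g1 : ∀ s, K s → s.Nonempty → ∀ r, g s r ≠ 0 → Θ s r := by
    intro s hs hne r hr
    rw [hg] at hr
    unfold psh at hr
    obtain ⟨t, _, ht⟩ := Finset.exists_ne_zero_of_sum_ne_zero hr
    obtain ⟨h1, h2⟩ := θ1 s hs hne t (left_ne_zero_of_mul ht)
    have htn : t.Nonempty := Finset.card_pos.mp (by rw [h2]; exact Finset.card_pos.mpr hne)
    have h3 := (ψ1 t (ΦL s hs hne t h1) htn r (right_ne_zero_of_mul ht)).1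
    exact hc s t r hs hne h1 htn h3
  have g2 : ∀ s, K s → s.Nonempty → ∀ r, bd (g s) r = ∑ a ∈ s, g (s.erase a) r := by
    intro s hs hne r
    have e0 : g s = psh ψ (θ s) := by
      funext r
      exact hg s r
    rw [e0, psh_bd ψ ψ2' (θ s) (θL s hs) r]
    unfold psh
    have e1 : ∀ t : Finset B, bd (θ s) t * ψ t r = ∑ a ∈ s, θ (s.erase a) t * ψ t r := by
      intro t
      rw [θ2' s hs t, Finset.sum_mul]
    rw [Finset.sum_congr rfl fun t _ => e1 t, Finset.sum_comm]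
    refine Finset.sum_congr rfl fun a _ => ?_
    rw [hg]
    rfl
  obtain ⟨h, h0, h1, h2⟩ := htpy K hK Θ Θm Θs Θac g g0 g1 g2
  refine ack_of fun z hz0 hbz => ?_
  have hz : ∀ s, z s ≠ 0 → K s := fun s hs => (hz0 s hs).1
  -- the image in `L`
  have hzL : ∀ r, psh θ z r ≠ 0 → L r ∧ r.card ≤ k := by
    intro r hr
    unfold psh at hr
    obtain ⟨s, _, hs⟩ := Finset.exists_ne_zero_of_sum_ne_zero hr
    have hzs := hz0 s (left_ne_zero_of_mul hs)
    refine ⟨θL s hzs.1 r (right_ne_zero_of_mul hs), ?_⟩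
    rcases s.eq_empty_or_nonempty with h | h
    · have h3 := right_ne_zero_of_mul hs
      rw [h, θ0] at h3
      by_cases h4 : r = ∅
      · rw [h4]
        simp
      · rw [if_neg h4] at h3
        exact absurd rfl h3
    · rw [(θ1 s hzs.1 h r (right_ne_zero_of_mul hs)).2]
      exact hzs.2
  have hzb : ∀ r, bd (psh θ z) r = 0 := by
    intro r
    rw [psh_bd θ θ2' z hz r]
    unfold psh
    refine Finset.sum_eq_zero fun s _ => ?_
    rw [hbz, zero_mul]
  obtain ⟨b, hb1, hb2⟩ := hAL _ hzL hzb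
  refine ⟨fun r => psh ψ b r + psh h z r, ?_, ?_⟩
  · intro r hr
    by_cases e1 : psh ψ b r = 0
    · beta_reduce at hr
      rw [e1, zero_add] at hr
      unfold psh at hr
      obtain ⟨s, _, hs⟩ := Finset.exists_ne_zero_of_sum_ne_zero hr
      have hKs := hz s (left_ne_zero_of_mul hs)
      have hne : s.Nonempty := by
        rcases s.eq_empty_or_nonempty with h3 | h3
        · rw [h3, h0, mul_zero] at hs
          exact absurd rfl hs
        · exact h3
      exact ΘK s hKs hne r (h1 s hKs hne r (right_ne_zero_of_mul hs))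
    · unfold psh at e1
      obtain ⟨s, _, hs⟩ := Finset.exists_ne_zero_of_sum_ne_zero e1
      exact ψK s (hb1 s (left_ne_zero_of_mul hs)).1 r (right_ne_zero_of_mul hs)
  · intro r
    rw [bd_add, psh_bd ψ ψ2' b (fun s hs => (hb1 s hs).1) r, bd_psh]
    have e1 : psh ψ (bd b) r = psh ψ (psh θ z) r := by
      unfold psh
      refine Finset.sum_congr rfl fun s _ => ?_
      rw [hb2]
      rfl
    have e2 : psh ψ (psh θ z) r = ∑ s, z s * g s r := by
      unfold psh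
      have e3 : ∀ t : Finset B, (∑ s, z s * θ s t) * ψ t r = ∑ s, z s * (θ s t * ψ t r) := by
        intro t
        rw [Finset.sum_mul]
        exact Finset.sum_congr rfl fun s _ => by ring
      rw [Finset.sum_congr rfl fun t _ => e3 t, Finset.sum_comm]
      refine Finset.sum_congr rfl fun s _ => ?_
      rw [← Finset.mul_sum, hg]
      rfl
    have e4 : ∀ s : Finset A, z s * bd (h s) r =
        z s * dl s r + z s * g s r + z s * ∑ a ∈ s, h (s.erase a) r := by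
      intro s
      by_cases h0 : z s = 0
      · rw [h0]
        ring
      · rw [h2 s (hz s h0) r]
        ring
    rw [e1, e2, Finset.sum_congr rfl fun s _ => e4 s, Finset.sum_add_distrib,
      Finset.sum_add_distrib]
    have e5 : ∑ s : Finset A, z s * dl s r = z r := by
      rw [Finset.sum_eq_single r]
      · simp [dl]
      · intro b _ hb
        have : dl b r = 0 := if_neg fun h => hb h.symm
        rw [this, mul_zero]
      · intro h
        exact absurd (mem_univ _) h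
    have e6 : ∑ s : Finset A, z s * ∑ a ∈ s, h (s.erase a) r = 0 := by
      have h7 := pairing (fun s => h s r) z
      rw [← h7]
      refine Finset.sum_eq_zero fun s _ => ?_
      rw [hbz, mul_zero]
    rw [e5, e6, add_zero]
    have h8 := CharTwo.add_self_eq_zero (∑ s : Finset A, z s * g s r)
    linear_combination h8

/-- CLOSURE, truncated. -/
theorem ack_closure {k : ℕ} {α β : Type*} [PartialOrder α] [Fintype α] [DecidableEq α]
    [PartialOrder β] [Fintype β] [DecidableEq β] {P : α → Prop} {Q : β → Prop}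
    (f : α → β) (g : β → α) (hf : ∀ x, P x → Q (f x)) (hg : ∀ y, Q y → P (g y))
    (fm : ∀ x x', P x → P x' → x ≤ x' → f x ≤ f x')
    (gm : ∀ y y', Q y → Q y' → y ≤ y' → g y ≤ g y')
    (hfg : ∀ x, P x → x ≤ g (f x)) (hQ : ACk k (Ch Q)) : ACk k (Ch P) := by
  have hfi : ∀ s, Ch P s → Ch Q (s.image f) := by
    intro s hs
    refine ⟨fun y hy => ?_, fun y hy y' hy' => ?_⟩
    · obtain ⟨x, hx, rfl⟩ := mem_image.1 hy
      exact hf x (hs.1 x hx)
    · obtain ⟨x, hx, rfl⟩ := mem_image.1 hy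
      obtain ⟨x', hx', rfl⟩ := mem_image.1 hy'
      rcases hs.2 x hx x' hx' with h | h
      · exact Or.inl (fm x x' (hs.1 x hx) (hs.1 x' hx') h)
      · exact Or.inr (fm x' x (hs.1 x' hx') (hs.1 x hx) h)
  have hgi : ∀ s, Ch Q s → Ch P (s.image g) := by
    intro s hs
    refine ⟨fun y hy => ?_, fun y hy y' hy' => ?_⟩
    · obtain ⟨x, hx, rfl⟩ := mem_image.1 hy
      exact hg x (hs.1 x hx)
    · obtain ⟨x, hx, rfl⟩ := mem_image.1 hy
      obtain ⟨x', hx', rfl⟩ := mem_image.1 hy'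
      rcases hs.2 x hx x' hx' with h | h
      · exact Or.inl (gm x x' (hs.1 x hx) (hs.1 x' hx') h)
      · exact Or.inr (gm x' x (hs.1 x' hx') (hs.1 x hx) h)
  refine ack_transfer (Ch P) (Ch Q) ch_dn ch_dn (ch_empty P) (ch_empty Q)
    (fun s T => T ⊆ s.image f) (fun t U => U ⊆ t.image g)
    (fun s U => Ch P U ∧ ∃ m ∈ s, ∀ u ∈ U, m ≤ u)
    ?_ ?_ ?_ ?_ ?_ ?_ ?_ ?_ ?_ ?_ ?_ ?_ ?_ hQ
  · exact fun s t hst _ _ r hr => hr.trans (image_subset_image hst)
  · exact fun s _ _ => empty_subset _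
  · exact fun s _ hn => ac_simplex (hn.image f)
  · exact fun s hs _ r hr => ch_dn _ _ hr (hfi s hs)
  · exact fun s t hst _ _ r hr => hr.trans (image_subset_image hst)
  · exact fun s _ _ => empty_subset _
  · exact fun s _ hn => ac_simplex (hn.image g)
  · exact fun s hs _ r hr => ch_dn _ _ hr (hgi s hs)
  · rintro s t hst _ _ r ⟨h1, m, hm, h2⟩
    exact ⟨h1, m, hst hm, h2⟩
  · intro s hs hn
    obtain ⟨m, hm, h⟩ := ch_min hs hn
    exact ⟨hs, m, hm, h⟩
  · intro s hs hn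
    obtain ⟨m, hm, h⟩ := ch_min hs hn
    refine H96H.ac_cone ?_ m ?_
    · rintro U U' hU ⟨h1, m', hm', h2⟩
      exact ⟨ch_dn _ _ hU h1, m', hm', fun u hu => h2 u (hU hu)⟩
    · rintro U ⟨h1, m', hm', h2⟩
      refine ⟨ch_insert h1 (hs.1 m hm) fun x hx => Or.inl ((h m' hm').trans (h2 x hx)), m, hm, ?_⟩
      intro u hu
      rcases mem_insert.1 hu with h3 | h3
      · rw [h3]
      · exact (h m' hm').trans (h2 u h3)
  · exact fun s _ _ r hr => hr.1
  · intro s t r hs hn h1 _ h3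
    refine ⟨ch_dn _ _ (h3.trans (image_subset_image h1)) (hgi _ (hfi s hs)), ?_⟩
    obtain ⟨m, hm, h⟩ := ch_min hs hn
    refine ⟨m, hm, fun u hu => ?_⟩
    obtain ⟨y, hy, rfl⟩ := mem_image.1 (h3 hu)
    obtain ⟨x, hx, rfl⟩ := mem_image.1 (h1 hy)
    exact (h x hx).trans (hfg x (hs.1 x hx))

/-- SUBDIVISION, truncated. -/
theorem ack_sd {k : ℕ} {E : Type*} [Fintype E] [DecidableEq E] {K : Finset E → Prop} (hK : Dn K)
    (hK0 : K ∅) (hA : ACk k K) : ACk k (Ch fun G : Finset E => K G ∧ G.Nonempty) := by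
  refine ack_transfer (Ch fun G : Finset E => K G ∧ G.Nonempty) K ch_dn hK (ch_empty _) hK0
    (fun c G => ∃ M ∈ c, G ⊆ M) (fun G => Ch fun F : Finset E => F ⊆ G ∧ F.Nonempty)
    (fun c => Ch fun F : Finset E => (∃ M ∈ c, F ⊆ M) ∧ F.Nonempty)
    ?_ ?_ ?_ ?_ ?_ ?_ ?_ ?_ ?_ ?_ ?_ ?_ ?_ hA
  · rintro s t hst _ _ r ⟨M, hM, h⟩
    exact ⟨M, hst hM, h⟩
  · rintro s _ ⟨M, hM⟩
    exact ⟨M, hM, empty_subset _⟩
  · intro s hs hn
    obtain ⟨M, hM, h⟩ := ch_max hs hn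
    refine ac_congr (K := fun G => G ⊆ M) (fun G => ?_) (ac_simplex (hs.1 M hM).2)
    exact ⟨fun h1 => ⟨M, hM, h1⟩, fun ⟨M', hM', h1⟩ => h1.trans (h M' hM')⟩
  · rintro s hs _ r ⟨M, hM, h⟩
    exact hK _ _ h (hs.1 M hM).1
  · exact fun s t hst _ _ r hr => ch_mono (fun x hx => ⟨hx.1.trans hst, hx.2⟩) hr
  · exact fun s _ _ => ch_empty _
  · exact fun s _ hn => ac_ch_cone (a := s) ⟨Subset.rfl, hn⟩ fun x hx => Or.inr hx.1
  · exact fun s hs _ r hr => ch_mono (fun x hx => ⟨hK _ _ hx.1 hs, hx.2⟩) hr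
  · exact fun s t hst _ _ r hr =>
      ch_mono (fun x hx => ⟨⟨hx.1.choose, hst hx.1.choose_spec.1, hx.1.choose_spec.2⟩, hx.2⟩) hr
  · exact fun s hs _ => ⟨fun x hx => ⟨⟨x, hx, Subset.rfl⟩, (hs.1 x hx).2⟩, hs.2⟩
  · intro s hs hn
    obtain ⟨M, hM, h⟩ := ch_max hs hn
    refine ac_ch_cone (a := M) ⟨⟨M, hM, Subset.rfl⟩, (hs.1 M hM).2⟩ fun x hx => Or.inr ?_
    obtain ⟨⟨M', hM', h1⟩, -⟩ := hx
    exact h1.trans (h M' hM')
  · intro s hs _ r hr
    refine ch_mono (fun x hx => ?_) hr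
    obtain ⟨⟨M', hM', h1⟩, h2⟩ := hx
    exact ⟨hK _ _ h1 (hs.1 M' hM').1, h2⟩
  · rintro s t r hs hn ⟨M, hM, h⟩ _ h3
    exact ch_mono (fun x hx => ⟨⟨M, hM, hx.1.trans h⟩, hx.2⟩) h3


/-- `ACk` gives `HC`. -/
theorem hc_of_ack {B : Type*} [Fintype B] [DecidableEq B] {K : Finset B → Prop} {k j : ℕ} (hj : j ≤ k)
    (h : ACk k K) : H56V.HC K j := by
  intro z hz hb
  obtain ⟨c, hc1, hc2⟩ := h z (fun s hs => ⟨(hz s hs).1, by rw [(hz s hs).2]; exact hj⟩) hb
  refine ⟨fun r => if r.card = j + 1 then c r else 0, ?_, ?_⟩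
  · intro s hs
    beta_reduce at hs
    by_cases h1 : s.card = j + 1
    · rw [if_pos h1] at hs
      exact ⟨(hc1 s hs).1, h1⟩
    · rw [if_neg h1] at hs
      exact absurd rfl hs
  · intro r
    rw [bd_card, hc2]
    by_cases h1 : r.card = j
    · rw [if_pos h1]
    · rw [if_neg h1]
      by_contra h2
      exact h1 (hz r fun h3 => h2 h3.symm).2

/-- UPPER FIBRES: `P` in the nonempty members of `N`, all sets of the members above a member of `N` acyclic. -/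
theorem ack_fibre {V : Type*} [Fintype V] [DecidableEq V] {k : ℕ} {P N : Finset V → Prop}
    (hPN : ∀ W, P W → N W ∧ W.Nonempty)
    (hf : ∀ M, N M → M.Nonempty → AC (Ch fun W => M ⊆ W ∧ P W))
    (hN : ACk k (Ch fun M : Finset V => N M ∧ M.Nonempty)) : ACk k (Ch P) := by
  refine ack_transfer (Ch P) (Ch fun M : Finset V => N M ∧ M.Nonempty) ch_dn ch_dn (ch_empty _) (ch_empty _)
    (fun s τ => τ ⊆ s) (fun τ => Ch fun W => (∃ M ∈ τ, M ⊆ W) ∧ P W)
    (fun s => Ch fun W => (∃ M ∈ s, M ⊆ W) ∧ P W)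
    ?_ ?_ ?_ ?_ ?_ ?_ ?_ ?_ ?_ ?_ ?_ ?_ ?_ hN
  · exact fun s t hst _ _ r hr => hr.trans hst
  · exact fun s _ _ => empty_subset _
  · exact fun s _ hn => ac_simplex hn
  · exact fun s hs _ r hr => ch_mono (fun x hx => hPN x hx) (ch_dn _ _ hr hs)
  · exact fun s t hst _ _ r hr =>
      ch_mono (fun x hx => ⟨⟨hx.1.choose, hst hx.1.choose_spec.1, hx.1.choose_spec.2⟩, hx.2⟩) hr
  · exact fun s _ _ => ch_empty _
  · intro s hs hn
    obtain ⟨m, hm, h⟩ := ch_min hs hn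
    refine ac_congr (fun T => ?_) (hf m (hs.1 m hm).1 (hs.1 m hm).2)
    constructor
    · exact fun h1 => ch_mono (fun x hx => ⟨⟨m, hm, hx.1⟩, hx.2⟩) h1
    · intro h1
      refine ch_mono (fun x hx => ?_) h1
      obtain ⟨⟨M, hM, h2⟩, h3⟩ := hx
      exact ⟨(h M hM).trans h2, h3⟩
  · exact fun s _ _ r hr => ch_mono (fun x hx => hx.2) hr
  · exact fun s t hst _ _ r hr =>
      ch_mono (fun x hx => ⟨⟨hx.1.choose, hst hx.1.choose_spec.1, hx.1.choose_spec.2⟩, hx.2⟩) hr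
  · exact fun s hs _ => ⟨fun x hx => ⟨⟨x, hx, Subset.rfl⟩, hs.1 x hx⟩, hs.2⟩
  · intro s hs hn
    obtain ⟨m, hm, h⟩ := ch_min hs hn
    refine ac_ch_cone (a := m) ⟨⟨m, hm, Subset.rfl⟩, hs.1 m hm⟩ fun x hx => Or.inl ?_
    obtain ⟨⟨M', hM', h1⟩, -⟩ := hx
    exact (h M' hM').trans h1
  · exact fun s _ _ r hr => ch_mono (fun x hx => hx.2) hr
  · intro s t r hs hn h1 _ h3
    refine ch_mono (fun x hx => ?_) h3
    obtain ⟨⟨M, hM, h2⟩, h4⟩ := hx
    exact ⟨⟨M, h1 hM, h2⟩, h4⟩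

end H33TF
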