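import Pool.Agent.Lib.H30D.C4
import Pool.Agent.Lib.H70H.K1

/-!
# H33TF, file N: the complex of the vertex sets which are not connected dominating sets of a graph with few edges
-/

set_option autoImplicit false
set_option linter.unusedSectionVars false

namespace H33TF

open Finset H98P H98Z H98M H63F H30F H70H H30D

section ab

variable {E : Type*} [Fintype E] [DecidableEq E]

/-- Deletion and link of a vertex, truncated. -/
theorem ack_vertex {k : ℕ} {K : Finset E → Prop} (hK : Dn K) (a : E)
    (h1 : ACk k fun s => K s ∧ a ∉ s) (h2 : 1 ≤ k → ACk (k - 1) fun s => K (insert a s) ∧ a ∉ s) : ACk k K := by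
  rcases k with _ | k
  · refine ack_of fun z hz hb => ?_
    obtain ⟨c, hc, hcb⟩ := h1 z (fun s hs => by
      obtain ⟨h3, h4⟩ := hz s hs
      have h5 : s = ∅ := card_eq_zero.1 (by omega)
      exact ⟨⟨h3, by rw [h5]; exact notMem_empty a⟩, h4⟩) hb
    exact ⟨c, fun s hs => (hc s hs).1.1, hcb⟩
  · exact ack_add hK a h1 (by
      have := h2 (by omega)
      simpa using this)

end ab

variable {V : Type*} [Fintype V] [DecidableEq V]

/-- `M` lies in a disconnected set. -/
def NC (G : Finset (Sym2 V)) (M : Finset V) : Prop := ∃ W, M ⊆ W ∧ Disc W G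

def KK (G : Finset (Sym2 V)) (P Z M : Finset V) : Prop := M ⊆ P ∧ NC G (M ∪ Z)

variable {G : Finset (Sym2 V)}

theorem nc_mono {M M' : Finset V} (h : M ⊆ M') (h' : NC G M') : NC G M :=
  ⟨h'.choose, h.trans h'.choose_spec.1, h'.choose_spec.2⟩

theorem kk_dn {P Z : Finset V} : Dn (KK G P Z) := fun _ _ h h' =>
  ⟨h.trans h'.1, nc_mono (union_subset_union h Subset.rfl) h'.2⟩

theorem nc_of_pair {M C D : Finset V} (hM : M ⊆ C ∪ D) (hC : C.Nonempty) (hD : D.Nonempty) (hCD : Disjoint C D)
    (h : ∀ x ∈ C, ∀ y ∈ D, s(x, y) ∉ G) : NC G M := ⟨C ∪ D, hM, C, D, hC, hD, hCD, rfl, h⟩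

theorem kk_del {P Z : Finset V} {y : V} (hy : y ∉ P) (s : Finset V) :
    KK G P Z s ↔ KK G (insert y P) Z s ∧ y ∉ s := by
  constructor
  · rintro ⟨h1, h2⟩
    exact ⟨⟨h1.trans (subset_insert y P), h2⟩, fun h => hy (h1 h)⟩
  · rintro ⟨⟨h1, h2⟩, h3⟩
    refine ⟨fun v hv => ?_, h2⟩
    rcases mem_insert.1 (h1 hv) with h4 | h4
    · exact absurd (h4 ▸ hv) h3
    · exact h4

theorem kk_link {P Z : Finset V} {y : V} (hy : y ∉ P) (s : Finset V) :
    KK G P (insert y Z) s ↔ KK G (insert y P) Z (insert y s) ∧ y ∉ s := by
  have e : insert y s ∪ Z = s ∪ insert y Z := by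
    ext v
    simp only [mem_union, mem_insert]
    tauto
  constructor
  · rintro ⟨h1, h2⟩
    exact ⟨⟨insert_subset_insert y h1, by rwa [e]⟩, fun h => hy (h1 h)⟩
  · rintro ⟨⟨h1, h2⟩, h3⟩
    refine ⟨fun v hv => ?_, by rwa [e] at h2⟩
    rcases mem_insert.1 (h1 (mem_insert_of_mem hv)) with h4 | h4
    · exact absurd (h4 ▸ hv) h3
    · exact h4

/-- The case D0. -/
theorem ac_D0 {P Z : Finset V} (hPZ : Disjoint P Z) (hZ : Z.Nonempty) (hn : ¬ Disc Z G)
    (hX : ∀ x, x ∉ P → x ∉ Z → ∃ z ∈ Z, s(z, x) ∈ G) : AC (KK G P Z) := by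
  refine ac_congr (K := Rr G (P ∪ Z) Z) (fun s => ?_) (ac_R _ (P ∪ Z) Z le_rfl subset_union_right hZ hn)
  have e : (P ∪ Z) \ Z = P := by
    rw [union_sdiff_right]
    exact sdiff_eq_self_of_disjoint hPZ
  constructor
  · rintro ⟨h1, W, h2, h3, h4⟩
    rw [e] at h1
    exact ⟨h1, W, h2, h4⟩
  · rintro ⟨h1, W, h2, h4⟩
    obtain ⟨C, D, hD, hCD, hW, hZC, h⟩ := disc_part hZ hn (subset_union_right.trans h2) h4
    have hDP : D ⊆ P := by
      intro d hd
      by_contra hdP
      obtain ⟨z, hz, hzd⟩ := hX d hdP fun hdZ => disjoint_left.1 hCD (hZC hdZ) hd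
      exact h z (hZC hz) d hd hzd
    refine ⟨by rw [e]; exact h1, (C ∩ (P ∪ Z)) ∪ D, ?_, ?_, C ∩ (P ∪ Z), D, ?_, hD, ?_, rfl, ?_⟩
    · intro v hv
      have h5 := h2 hv
      rw [← hW, mem_union] at h5
      rcases h5 with h5 | h5
      · refine mem_union_left _ (mem_inter.2 ⟨h5, ?_⟩)
        rcases mem_union.1 hv with h6 | h6
        · exact mem_union_left _ (h1 h6)
        · exact mem_union_right _ h6
      · exact mem_union_right _ h5
    · exact union_subset inter_subset_right (hDP.trans subset_union_left)
    · obtain ⟨z, hz⟩ := hZ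
      exact ⟨z, mem_inter.2 ⟨hZC hz, mem_union_right _ hz⟩⟩
    · exact disjoint_of_subset_left inter_subset_left hCD
    · exact fun x hx y hy => h x (mem_inter.1 hx).1 y hy

/-! ### counting -/

def av (G : Finset (Sym2 V)) (x y : V) : ℕ := if s(x, y) ∈ G then 1 else 0

def row (G : Finset (Sym2 V)) (x : V) (B : Finset V) : ℕ := ∑ y ∈ B, av G x y

def cnt (G : Finset (Sym2 V)) (A B : Finset V) : ℕ := ∑ x ∈ A, row G x B

theorem av_comm (x y : V) : av G x y = av G y x := by
  unfold av
  rw [Sym2.eq_swap]

theorem row_ins {x y : V} {B : Finset V} (h : y ∉ B) : row G x (insert y B) = av G x y + row G x B :=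
  sum_insert h

theorem cnt_ins_l {x : V} {A B : Finset V} (h : x ∉ A) : cnt G (insert x A) B = row G x B + cnt G A B :=
  sum_insert h

theorem cnt_comm (A B : Finset V) : cnt G A B = cnt G B A := by
  unfold cnt row
  rw [sum_comm]
  exact sum_congr rfl fun x _ => sum_congr rfl fun y _ => av_comm y x

theorem cnt_ins_r {x : V} {A B : Finset V} (h : x ∉ B) : cnt G A (insert x B) = row G x A + cnt G A B := by
  rw [cnt_comm, cnt_ins_l h, cnt_comm B A]

theorem cnt_ins {x : V} {P : Finset V} (hl : av G x x = 0) (h : x ∉ P) :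
    cnt G (insert x P) (insert x P) = 2 * row G x P + cnt G P P := by
  rw [cnt_ins_l h, row_ins h, cnt_ins_r h, hl]
  ring

theorem row_pos {x y : V} {B : Finset V} (hy : y ∈ B) (h : s(x, y) ∈ G) : 1 ≤ row G x B := by
  have h1 : av G x y ≤ row G x B := single_le_sum (f := fun y => av G x y) (fun _ _ => Nat.zero_le _) hy
  have h2 : av G x y = 1 := if_pos h
  omega

theorem row_eq (x : V) (B : Finset V) : row G x B = (B.filter fun v => s(x, v) ∈ G).card := by
  unfold row av
  rw [card_filter]

theorem cnt_ge {A B : Finset V} (h : ∀ x ∈ A, ∃ y ∈ B, s(x, y) ∈ G) : A.card ≤ cnt G A B := by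
  unfold cnt
  rw [card_eq_sum_ones]
  exact sum_le_sum fun x hx => by
    obtain ⟨y, hy, h1⟩ := h x hx
    exact row_pos hy h1

theorem cnt_mono_l {A A' B : Finset V} (h : A ⊆ A') : cnt G A B ≤ cnt G A' B :=
  sum_le_sum_of_subset h

/-- the neighbours of `Z` in `P` -/
def NZ (G : Finset (Sym2 V)) (P Z : Finset V) : Finset V := P.filter fun v => ∃ z ∈ Z, s(z, v) ∈ G

/-- the vertices outside `P` and `Z` without neighbour in `Z` -/
def JZ (G : Finset (Sym2 V)) (P Z : Finset V) : Finset V :=
  univ.filter fun x => x ∉ P ∧ x ∉ Z ∧ ∀ z ∈ Z, s(z, x) ∉ G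

theorem mem_JZ {P Z : Finset V} {x : V} : x ∈ JZ G P Z ↔ x ∉ P ∧ x ∉ Z ∧ ∀ z ∈ Z, s(z, x) ∉ G := by
  unfold JZ
  rw [mem_filter]
  exact ⟨fun h => h.2, fun h => ⟨mem_univ _, h⟩⟩

theorem mem_NZ {P Z : Finset V} {x : V} : x ∈ NZ G P Z ↔ x ∈ P ∧ ∃ z ∈ Z, s(z, x) ∈ G := by
  unfold NZ
  rw [mem_filter]

theorem not_disc_insert {Z : Finset V} {y z : V} (hZ : Z.Nonempty) (hn : ¬ Disc Z G) (hz : z ∈ Z)
    (hzy : s(z, y) ∈ G) : ¬ Disc (insert y Z) G := by
  intro hdz
  obtain ⟨C, D, hD, hCD, hW, hZC, h⟩ := disc_part hZ hn (subset_insert y Z) hdz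
  obtain ⟨d, hdd⟩ := hD
  have h1 : d ∈ insert y Z := by
    rw [← hW]
    exact mem_union_right _ hdd
  rcases mem_insert.1 h1 with h2 | h2
  · exact h z (hZC hz) d hdd (h2 ▸ hzy)
  · exact disjoint_left.1 hCD (hZC h2) hdd

/-- The case D1. -/
theorem ack_D1 (hG : ∀ e ∈ G, ¬ e.IsDiag) (n : ℕ) : ∀ (k : ℕ) (P Z : Finset V), P.card ≤ n → Disjoint P Z →
    Z.Nonempty → ¬ Disc Z G → P.Nonempty → (JZ G P Z).Nonempty →
    2 * k + cnt G P P + 2 * (NZ G P Z).card + 2 * cnt G (JZ G P Z) P + 4 ≤ 4 * P.card + 2 * (JZ G P Z).card →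
    ACk k (KK G P Z) := by
  have hl : ∀ x : V, av G x x = 0 := fun x => if_neg fun h => hG _ h (by simp)
  induction n with
  | zero =>
    intro k P Z hc _ _ _ hP
    have := hP.card_pos
    omega
  | succ n ih =>
    intro k P Z hc hPZ hZ hn hP hJ hk
    obtain ⟨x0, hx0⟩ := hJ
    have hx0' := mem_JZ.1 hx0
    have hsimp : (∀ M ⊆ P, NC G (M ∪ Z)) → ACk k (KK G P Z) := fun h => ack_of_ac k
      (ac_congr (K := fun s => s ⊆ P) (fun s => ⟨fun h1 => ⟨h1, h s h1⟩, fun h1 => h1.1⟩) (ac_simplex hP))
    by_cases hA : ∃ x ∈ JZ G P Z, ∀ p ∈ P, s(x, p) ∉ G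
    · obtain ⟨x, hx, hxp⟩ := hA
      have hx' := mem_JZ.1 hx
      refine hsimp fun M hM => nc_of_pair (C := M ∪ Z) (D := {x}) subset_union_left
        (hZ.mono subset_union_right) (singleton_nonempty x) ?_ ?_
      · rw [disjoint_singleton_right, mem_union]
        rintro (h | h)
        · exact hx'.1 (hM h)
        · exact hx'.2.1 h
      · intro v hv w hw
        rw [mem_singleton] at hw
        subst hw
        rcases mem_union.1 hv with h | h
        · rw [Sym2.eq_swap]
          exact hxp v (hM h)
        · exact hx'.2.2 v h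
    · push Not at hA
      by_cases hB : ∃ y ∈ P, (∃ z ∈ Z, s(z, y) ∈ G) ∧ ∃ w, (w ∈ P ∨ w ∈ JZ G P Z) ∧ s(y, w) ∈ G
      · obtain ⟨y, hy, ⟨z, hz, hzy⟩, w, hw, hyw⟩ := hB
        have hyZ : y ∉ Z := fun h => disjoint_left.1 hPZ hy h
        obtain ⟨P', hyP', rfl⟩ : ∃ P', y ∉ P' ∧ P = insert y P' :=
          ⟨P.erase y, notMem_erase y P, (insert_erase hy).symm⟩
        have hwy : w ≠ y := by
          rintro rfl
          exact hG _ hyw (by simp)
        have hJe : JZ G P' Z = JZ G (insert y P') Z := by
          ext x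
          rw [mem_JZ, mem_JZ, mem_insert]
          constructor
          · rintro ⟨h1, h2, h3⟩
            refine ⟨fun h => ?_, h2, h3⟩
            rcases h with h | h
            · exact h3 z hz (h ▸ hzy)
            · exact h1 h
          · rintro ⟨h1, h2, h3⟩
            exact ⟨fun h => h1 (Or.inr h), h2, h3⟩
        have hNe : (NZ G (insert y P') Z).card = (NZ G P' Z).card + 1 := by
          have : NZ G (insert y P') Z = insert y (NZ G P' Z) := by
            ext v
            rw [mem_insert, mem_NZ, mem_NZ, mem_insert]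
            constructor
            · rintro ⟨h1 | h1, h2⟩
              · exact Or.inl h1
              · exact Or.inr ⟨h1, h2⟩
            · rintro (h1 | h1)
              · exact ⟨Or.inl h1, z, hz, h1 ▸ hzy⟩
              · exact ⟨Or.inr h1.1, h1.2⟩
          rw [this, card_insert_of_notMem fun h => hyP' (mem_NZ.1 h).1]
        have hcP := card_insert_of_notMem hyP'
        have hPP := cnt_ins (hl y) hyP'
        have hJP := cnt_ins_r (G := G) (A := JZ G (insert y P') Z) hyP'
        have hJc := cnt_ge hA
        rcases P'.eq_empty_or_nonempty with hP' | hP'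
        · subst hP'
          simp only [card_empty] at hcP
          omega
        have hdy : 1 ≤ row G y P' + row G y (JZ G (insert y P') Z) := by
          rcases hw with hw | hw
          · have h1 : w ∈ P' := by
              rcases mem_insert.1 hw with h | h
              · exact absurd h hwy
              · exact h
            have := row_pos h1 hyw
            omega
          · have := row_pos hw hyw
            omega
        have hdisj : Disjoint P' Z := disjoint_of_subset_left (subset_insert y P') hPZ
        refine ack_vertex kk_dn y ?_ fun hk1 => ?_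
        · refine ack_congr (kk_del hyP') (ih k P' Z (by omega) hdisj hZ hn hP' ?_ ?_)
          · rw [hJe]
            exact ⟨x0, hx0⟩
          · rw [hJe]
            omega
        · refine ack_congr (kk_link hyP') ?_
          have hn' := not_disc_insert hZ hn hz hzy
          have hdisj' : Disjoint P' (insert y Z) := by
            rw [disjoint_insert_right]
            exact ⟨hyP', hdisj⟩
          rcases (JZ G P' (insert y Z)).eq_empty_or_nonempty with hJ' | hJ'
          · refine ack_of_ac _ (ac_D0 hdisj' (insert_nonempty y Z) hn' fun x hx1 hx2 => ?_)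
            by_contra hcon
            push Not at hcon
            have : x ∈ JZ G P' (insert y Z) := mem_JZ.2 ⟨hx1, hx2, hcon⟩
            rw [hJ'] at this
            exact notMem_empty x this
          · refine ih (k - 1) P' (insert y Z) (by omega) hdisj' (insert_nonempty y Z) hn' hP' hJ' ?_
            have hJs : JZ G P' (insert y Z) = (JZ G (insert y P') Z).filter fun x => ¬ s(y, x) ∈ G := by
              ext x
              rw [mem_filter, mem_JZ, mem_JZ]
              simp only [mem_insert, forall_eq_or_imp, not_or]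
              constructor
              · rintro ⟨h1, ⟨h2, h3⟩, h4, h5⟩
                exact ⟨⟨⟨h2, h1⟩, h3, h5⟩, h4⟩
              · rintro ⟨⟨⟨h2, h1⟩, h3, h5⟩, h4⟩
                exact ⟨h1, ⟨h2, h3⟩, h4, h5⟩
            have hJcard : (JZ G P' (insert y Z)).card + row G y (JZ G (insert y P') Z) =
                (JZ G (insert y P') Z).card := by
              rw [hJs, row_eq]
              have := card_filter_add_card_filter_not (s := JZ G (insert y P') Z) fun x => s(y, x) ∈ G
              omega
            have hcm : cnt G (JZ G P' (insert y Z)) P' ≤ cnt G (JZ G (insert y P') Z) P' := by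
              apply cnt_mono_l
              rw [hJs]
              exact filter_subset _ _
            have hNm : (NZ G P' (insert y Z)).card ≤ (NZ G P' Z).card + row G y P' := by
              rw [row_eq]
              refine le_trans (card_le_card (t := NZ G P' Z ∪ P'.filter fun v => s(y, v) ∈ G) ?_)
                (card_union_le _ _)
              intro v hv
              obtain ⟨h1, z', hz', h2⟩ := mem_NZ.1 hv
              rcases mem_insert.1 hz' with h3 | h3
              · exact mem_union_right _ (mem_filter.2 ⟨h1, h3 ▸ h2⟩)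
              · exact mem_union_left _ (mem_NZ.2 ⟨h1, z', h3, h2⟩)
            omega
      · push Not at hB
        refine hsimp fun M hM => ?_
        refine nc_of_pair (C := Z ∪ M.filter fun v => ∃ z ∈ Z, s(z, v) ∈ G)
          (D := insert x0 (M.filter fun v => ¬ ∃ z ∈ Z, s(z, v) ∈ G)) ?_ (hZ.mono subset_union_left)
          (insert_nonempty _ _) ?_ ?_
        · intro v hv
          rcases mem_union.1 hv with h | h
          · by_cases h1 : ∃ z ∈ Z, s(z, v) ∈ G
            · exact mem_union_left _ (mem_union_right _ (mem_filter.2 ⟨h, h1⟩))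
            · exact mem_union_right _ (mem_insert_of_mem (mem_filter.2 ⟨h, h1⟩))
          · exact mem_union_left _ (mem_union_left _ h)
        · rw [disjoint_left]
          intro v hv hv'
          rcases mem_insert.1 hv' with h1 | h1
          · subst h1
            rcases mem_union.1 hv with h2 | h2
            · exact hx0'.2.1 h2
            · exact hx0'.1 (hM (mem_filter.1 h2).1)
          · rcases mem_union.1 hv with h2 | h2
            · exact disjoint_left.1 hPZ (hM (mem_filter.1 h1).1) h2
            · exact (mem_filter.1 h1).2 (mem_filter.1 h2).2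
        · intro v hv w hw
          rcases mem_union.1 hv with h2 | h2
          · rcases mem_insert.1 hw with h1 | h1
            · rw [h1]
              exact hx0'.2.2 v h2
            · exact fun h3 => (mem_filter.1 h1).2 ⟨v, h2, h3⟩
          · have h4 := mem_filter.1 h2
            rcases mem_insert.1 hw with h1 | h1
            · rw [h1]
              exact hB v (hM h4.1) h4.2 x0 (Or.inr hx0)
            · exact hB v (hM h4.1) h4.2 w (Or.inl (hM (mem_filter.1 h1).1))

/-- The case D2. -/
theorem ack_D2 (hG : ∀ e ∈ G, ¬ e.IsDiag) (n : ℕ) : ∀ (k : ℕ) (P X : Finset V), P.card ≤ n → (∀ v, v ∈ X ↔ v ∉ P) →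
    P.Nonempty → X.Nonempty → 2 * k + cnt G P P + 2 * cnt G X P + 6 ≤ 4 * P.card + 2 * X.card →
    ACk k (KK G P ∅) := by
  have hl : ∀ x : V, av G x x = 0 := fun x => if_neg fun h => hG _ h (by simp)
  induction n with
  | zero =>
    intro k P X hc _ hP
    have := hP.card_pos
    omega
  | succ n ih =>
    intro k P X hc hX hP hXn hk
    by_cases hA : ∃ x ∈ X, ∀ p ∈ P, s(x, p) ∉ G
    · obtain ⟨x, hx, hxp⟩ := hA
      refine ack_of_ac k (ac_congr (K := fun s => s ⊆ P) (fun s => ⟨fun h1 => ⟨h1, ?_⟩, fun h1 => h1.1⟩)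
        (ac_simplex hP))
      rw [union_empty]
      refine nc_mono h1 (nc_of_pair (C := P) (D := {x}) subset_union_left hP (singleton_nonempty x) ?_ ?_)
      · rw [disjoint_singleton_right]
        exact (hX x).1 hx
      · intro v hv w hw
        rw [mem_singleton] at hw
        subst hw
        rw [Sym2.eq_swap]
        exact hxp v hv
    · push Not at hA
      obtain ⟨x1, hx1⟩ := hXn
      obtain ⟨z, hz, hxz⟩ := hA x1 hx1
      obtain ⟨P', hzP', rfl⟩ : ∃ P', z ∉ P' ∧ P = insert z P' :=
        ⟨P.erase z, notMem_erase z P, (insert_erase hz).symm⟩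
      have hzX : z ∉ X := fun h => (hX z).1 h (mem_insert_self z P')
      have hcP := card_insert_of_notMem hzP'
      have hPP := cnt_ins (hl z) hzP'
      have hXP := cnt_ins_r (G := G) (A := X) hzP'
      have hXc := cnt_ge hA
      have hrz : 1 ≤ row G z X := row_pos hx1 (by rw [Sym2.eq_swap]; exact hxz)
      rcases P'.eq_empty_or_nonempty with hP' | hP'
      · subst hP'
        simp only [card_empty] at hcP
        omega
      refine ack_vertex kk_dn z ?_ fun hk1 => ?_
      · refine ack_congr (kk_del hzP') (ih k P' (insert z X) (by omega) (fun v => ?_) hP' (insert_nonempty z X) ?_)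
        · rw [mem_insert, hX, mem_insert]
          by_cases h : v = z
          · subst h
            simp [hzP']
          · simp [h]
        · have h1 := cnt_ins_l (G := G) (B := P') hzX
          have h2 := card_insert_of_notMem hzX
          omega
      · have e0 : (insert z ∅ : Finset V) = {z} := rfl
        refine ack_congr (kk_link hzP') ?_
        have hd' : Disjoint P' (insert z (∅ : Finset V)) := by
          rw [disjoint_insert_right]
          exact ⟨hzP', disjoint_empty_right _⟩
        have hn' : ¬ Disc (insert z (∅ : Finset V)) G := not_disc_singleton z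
        have hJs : JZ G P' (insert z ∅) = X.filter fun x => ¬ s(z, x) ∈ G := by
          ext x
          rw [mem_filter, mem_JZ, hX, mem_insert]
          simp only [mem_insert, notMem_empty, or_false, forall_eq, not_or]
          constructor
          · rintro ⟨h1, h2, h3⟩
            exact ⟨⟨h2, h1⟩, h3⟩
          · rintro ⟨⟨h2, h1⟩, h3⟩
            exact ⟨h1, h2, h3⟩
        rcases (JZ G P' (insert z ∅)).eq_empty_or_nonempty with hJ' | hJ'
        · refine ack_of_ac _ (ac_D0 hd' (insert_nonempty z ∅) hn' fun x hx1 hx2 => ?_)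
          by_contra hcon
          push Not at hcon
          have : x ∈ JZ G P' (insert z ∅) := mem_JZ.2 ⟨hx1, hx2, hcon⟩
          rw [hJ'] at this
          exact notMem_empty x this
        · refine ack_D1 hG _ (k - 1) P' (insert z ∅) le_rfl hd' (insert_nonempty z ∅) hn' hP' hJ' ?_
          have hJcard : (JZ G P' (insert z ∅)).card + row G z X = X.card := by
            rw [hJs, row_eq]
            have := card_filter_add_card_filter_not (s := X) fun x => s(z, x) ∈ G
            omega
          have hcm : cnt G (JZ G P' (insert z ∅)) P' ≤ cnt G X P' := by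
            apply cnt_mono_l
            rw [hJs]
            exact filter_subset _ _
          have hNm : (NZ G P' (insert z ∅)).card = row G z P' := by
            rw [row_eq]
            congr 1
            ext v
            rw [mem_NZ, mem_filter]
            simp
          omega

theorem cnt_univ (hG : ∀ e ∈ G, ¬ e.IsDiag) : cnt G univ univ = 2 * G.card := by
  have h1 : cnt G univ univ = ((univ : Finset (V × V)).filter fun p => s(p.1, p.2) ∈ G).card := by
    unfold cnt row av
    rw [card_filter, ← univ_product_univ, sum_product]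
  have h0 : ((univ : Finset (V × V)).filter fun p => s(p.1, p.2) ∈ G).card =
      ∑ e ∈ G, (((univ : Finset (V × V)).filter fun p => s(p.1, p.2) ∈ G).filter
        fun p => s(p.1, p.2) = e).card :=
    card_eq_sum_card_fiberwise (f := fun p : V × V => s(p.1, p.2)) (t := G)
      fun p hp => (mem_filter.1 (mem_coe.1 hp)).2
  rw [h1, h0, mul_comm, ← smul_eq_mul, ← sum_const]
  refine sum_congr rfl fun e he => ?_
  induction e using Sym2.ind with
  | _ a b =>
    have hab : a ≠ b := by
      rintro rfl
      exact hG _ he (by simp)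
    have h2 : ((univ.filter fun p : V × V => s(p.1, p.2) ∈ G).filter fun p => s(p.1, p.2) = s(a, b)) =
        {(a, b), (b, a)} := by
      ext p
      obtain ⟨x, y⟩ := p
      simp only [mem_filter, mem_univ, true_and, mem_insert, mem_singleton, Prod.mk.injEq, Sym2.eq_iff]
      constructor
      · exact fun h => h.2
      · intro h
        refine ⟨?_, h⟩
        rcases h with ⟨rfl, rfl⟩ | ⟨rfl, rfl⟩
        · exact he
        · rw [Sym2.eq_swap]
          exact he
    rw [h2, card_pair]
    intro h
    exact hab (Prod.mk.inj h).1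

/-- THE GRAPH LEMMA. -/
theorem ack_N (hG : ∀ e ∈ G, ¬ e.IsDiag) (hV : 2 ≤ Fintype.card V) {k : ℕ}
    (h : k + G.card + 4 ≤ 2 * Fintype.card V) : ACk k (fun M : Finset V => ∃ W, M ⊆ W ∧ Disc W G) := by
  have hl : ∀ x : V, av G x x = 0 := fun x => if_neg fun h => hG _ h (by simp)
  obtain ⟨z⟩ : Nonempty V := Fintype.card_pos_iff.1 (by omega)
  obtain ⟨P', hzP', hP⟩ : ∃ P' : Finset V, z ∉ P' ∧ univ = insert z P' :=
    ⟨univ.erase z, notMem_erase z univ, (insert_erase (mem_univ z)).symm⟩
  have hcP := card_insert_of_notMem hzP'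
  rw [← hP, card_univ] at hcP
  have hP' : P'.Nonempty := card_pos.1 (by omega)
  have hPP := cnt_ins (hl z) hzP'
  rw [← hP, cnt_univ hG] at hPP
  have key : ACk k (KK G (insert z P') ∅) := by
    refine ack_vertex kk_dn z ?_ fun hk1 => ?_
    · refine ack_congr (kk_del hzP') (ack_D2 hG _ k P' {z} le_rfl (fun v => ?_) hP' (singleton_nonempty z) ?_)
      · rw [mem_singleton]
        constructor
        · rintro rfl
          exact hzP'
        · intro hv
          have : v ∈ insert z P' := by
            rw [← hP]
            exact mem_univ v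
          rcases mem_insert.1 this with h1 | h1
          · exact h1
          · exact absurd h1 hv
      · have h1 : cnt G {z} P' = row G z P' := sum_singleton _ _
        rw [card_singleton, h1]
        omega
    · refine ack_congr (kk_link hzP') (ack_of_ac _ (ac_D0 ?_ (insert_nonempty z ∅) (not_disc_singleton z) ?_))
      · rw [disjoint_insert_right]
        exact ⟨hzP', disjoint_empty_right _⟩
      · intro x hx1 hx2
        exfalso
        have : x ∈ insert z P' := by
          rw [← hP]
          exact mem_univ x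
        rcases mem_insert.1 this with h1 | h1
        · exact hx2 (h1 ▸ mem_insert_self z ∅)
        · exact hx1 h1
  refine ack_congr (fun M => ?_) key
  unfold KK NC
  rw [union_empty]
  exact ⟨fun h => h.2, fun h => ⟨by rw [← hP]; exact subset_univ M, h⟩⟩

end H33TF
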