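import Pool.Agent.Lib.H33TF.N
import Pool.Agent.Lib.H33TF.T

/-!
# H33TF, file Q: the poset of the disconnected vertex sets of a graph with few edges
-/

set_option autoImplicit false
set_option linter.unusedSectionVars false

namespace H33TF

open Finset H98P H98Z H98M H63F H30F H70H H30D

variable {V : Type*} [Fintype V] [DecidableEq V] {G : Finset (Sym2 V)}

theorem exists_disc (hG : ∀ e ∈ G, ¬ e.IsDiag) (hV : 2 ≤ Fintype.card V)
    (h : G.card + 4 ≤ 2 * Fintype.card V) : ∃ W, Disc W G := by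
  by_contra hcon
  push Not at hcon
  have h1 : ∀ x y : V, x ≠ y → s(x, y) ∈ G := by
    intro x y hxy
    by_contra h2
    refine hcon {x, y} ⟨{x}, {y}, singleton_nonempty x, singleton_nonempty y, ?_, rfl, ?_⟩
    · rw [disjoint_singleton]
      exact hxy
    · intro u hu v hv
      rw [mem_singleton] at hu hv
      rw [hu, hv]
      exact h2
  have h2 : ∀ x : V, row G x univ = Fintype.card V - 1 := by
    intro x
    rw [row_eq]
    have : (univ.filter fun v => s(x, v) ∈ G) = univ.erase x := by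
      ext v
      rw [mem_filter, mem_erase]
      constructor
      · rintro ⟨-, h3⟩
        refine ⟨fun e => ?_, mem_univ v⟩
        subst e
        exact hG _ h3 (by simp)
      · rintro ⟨h3, -⟩
        exact ⟨mem_univ v, h1 x v (Ne.symm h3)⟩
    rw [this, card_erase_of_mem (mem_univ x), card_univ]
  have h3 := cnt_univ hG
  unfold cnt at h3
  rw [sum_congr rfl fun x _ => h2 x, sum_const, card_univ, smul_eq_mul] at h3
  obtain ⟨n, hn⟩ : ∃ n, Fintype.card V = n + 2 := ⟨Fintype.card V - 2, by omega⟩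
  rw [hn] at h3 h
  have h4 : n + 2 - 1 = n + 1 := by omega
  rw [h4] at h3
  nlinarith [sq_nonneg ((n : ℤ) - 1), h3, h]

/-- The disconnected vertex sets. -/
theorem ack_disc (hG : ∀ e ∈ G, ¬ e.IsDiag) (hV : 2 ≤ Fintype.card V) {k : ℕ}
    (h : k + G.card + 4 ≤ 2 * Fintype.card V) : ACk k (Ch fun W : Finset V => Disc W G) := by
  obtain ⟨W0, hW0⟩ := exists_disc hG hV (by omega)
  refine ack_fibre (N := fun M => ∃ W, M ⊆ W ∧ Disc W G) (fun W hW => ⟨⟨W, Subset.rfl, hW⟩, ?_⟩)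
    (fun M hM hn => ?_) (ack_sd (fun s t hst ⟨W, h1, h2⟩ => ⟨W, hst.trans h1, h2⟩)
      ⟨W0, empty_subset _, hW0⟩ (ack_N hG hV h))
  · obtain ⟨C, D, ⟨c, hc⟩, -, -, hW, -⟩ := hW
    exact ⟨c, hW ▸ mem_union_left _ hc⟩
  · refine ac_congr (fun s => ?_) (ac_above hn hM)
    exact ⟨fun h1 => ch_mono (fun x hx => ⟨hx.2, hx.1⟩) h1, fun h1 => ch_mono (fun x hx => ⟨hx.2, hx.1⟩) h1⟩

theorem hc_disc (hG : ∀ e ∈ G, ¬ e.IsDiag) (hV : 2 ≤ Fintype.card V) {k : ℕ}
    (h : k + G.card + 4 ≤ 2 * Fintype.card V) : H56V.HC (Ch fun W : Finset V => Disc W G) k :=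
  hc_of_ack le_rfl (ack_disc hG hV h)

end H33TF
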